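import Pool.Agent.H32.FM.Adj
import Pool.Agent.H32.FM.Exp

/-!
# Everywhere unramified representations: a criterion for finite image at a positive proportion of the primes

Let `K` be a number field, `p` a prime number, `E` a complete ultrametric field containing `ℚ_p` (for example a finite
extension of `ℚ_p` or `ℂ_p`, or a field containing a power series ring over `ℤ_p`) and `ρ : G_K → GL_n(E)` a continuous
representation which is unramified at all finite primes of `K`; `n` is arbitrary. For `E = ℚ_p` the conjecture of Fontaine and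
Mazur says that the image of `ρ` is finite. We prove that the following are equivalent:

(1) the image of `ρ` is finite;
(2) for a set of primes `v` of positive upper density the matrix `ρ(Frob_v)` has finite order;
(3) for a set of primes `v` of positive upper density some power of `ρ(Frob_v)` commutes with the image of an open subgroup of
`G_K` (for example, is a scalar matrix);
(4) there is a countable closed set `P` (for example a finite set) such that for a set of primes `v` of positive upper density
the characteristic polynomial of `ρ(Frob_v)` is in `P`.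

So a counterexample `ρ` to the conjecture would have the following property: in the field cut out by `ρ` the residue
degrees of all primes outside a set of density zero are infinite, these Frobenius elements act on the Lie algebra of the image by
automorphisms of infinite order, and on every set of primes of positive upper density the characteristic
polynomials of Frobenius are infinite in number.

Proof. (a) By Chebotarev's theorem the closed set of the `g` such that the characteristic polynomial of `ρ(g⁻¹)` is in `P` has positive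
Haar measure, so the set of the `g` where it is equal to some fixed `f` has positive measure and contains a coset `H x` of
an open subgroup (noetherian descent). As `x ^ (1 + m) ∈ H x` for some `m > 0`, the map `a ↦ a ^ (1 + m)` permutes the roots of `f`,
which are therefore roots of unity.
(b) For irreducible subquotients `r` of `ρ` it follows that `r(g) ^ M = 1` for all `g` in a set of positive measure, as `r(g)` is
semisimple outside a set of measure zero; by Kreknin's theorem on Lie algebras with an automorphism of finite order `r` is abelian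
on an open subgroup.
(c) The abelian quotients of `Gal(L/K')`, `L` the field cut out by `ρ`, have finite exponent for every finite extension `K'` of
`K` in `L`: a cyclic extension of `K'`, unramified at the finite primes, has degree at most `2 ^ r h`, `h` the class number and `r` the
number of real places of `K'` (Herbrand quotient of the unit group, Hilbert's theorem 90). So `r` is trivial on an open subgroup, and then
also `ρ`. For (3) this is applied to the representation on the span of the image of a small open subgroup.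
-/

set_option autoImplicit false
set_option linter.all false

namespace Pool.Agent.Results.MP_ca71b5_nt.FrobeniusDichotomy

open NumberField IsDedekindDomain Filter Matrix MeasureTheory
open Pool.Agent.W401.Cheb (GK IsFrob dens)
open Pool.Agent.H32.FM

section
variable {K : Type} [Field K] [NumberField K]

/-- The homomorphism `ρ` from the absolute Galois group of `K` is unramified at all finite primes: every finite extension
`L` of `K` in the field cut out by `ρ` is unramified over `K` at all finite primes. -/
def EverywhereUnramified {G : Type} [Group G] (ρ : GK K →* G) : Prop :=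
  ∀ L : IntermediateField K (AlgebraicClosure K), L ≤ IntermediateField.fixedField ρ.ker → FiniteDimensional K L →
    Algebra.Unramified (𝓞 K) (𝓞 L)

/-- The set of the primes `v` of `K` with the property `P` has positive upper density: there is a `δ > 0` such that for
arbitrarily large `N` there are at least `δ π(N)` primes of norm at most `N` with the property. -/
def PositiveUpperDensity (P : HeightOneSpectrum (𝓞 K) → Prop) : Prop :=
  ∃ δ : ℝ, 0 < δ ∧ ∃ᶠ N in atTop, δ ≤ dens P N

theorem posDens_all {P : HeightOneSpectrum (𝓞 K) → Prop} (h : ∀ v, P v) : PositiveUpperDensity P := by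
  have e : P = fun _ => True := by
    funext v
    exact eq_true (h v)
  refine ⟨1 / 2, by norm_num, ?_⟩
  rw [e]
  have h1 := (Pool.Agent.X320.DS.dens_all (K := K)).eventually (lt_mem_nhds (show (1 / 2 : ℝ) < 1 by norm_num))
  exact (h1.mono fun N hN => hN.le).frequently

end

section
variable {E : Type} [Field E] {n : ℕ}

/-- the coefficients `c_0, …, c_(n-1)` of the characteristic polynomial of a matrix -/
noncomputable def coeffs (X : Matrix (Fin n) (Fin n) E) : Fin n → E := fun i => X.charpoly.coeff i

theorem charpoly_of_coeffs {X : Matrix (Fin n) (Fin n) E} {c : Fin n → E} (h : coeffs X = c) :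
    X.charpoly = Polynomial.X ^ n + ∑ i : Fin n, Polynomial.C (c i) * Polynomial.X ^ (i : ℕ) := by
  have h1 := X.charpoly_monic.as_sum
  rw [Matrix.charpoly_natDegree_eq_dim, Fintype.card_fin] at h1
  rw [h1, ← Fin.sum_univ_eq_sum_range (fun i => Polynomial.C (X.charpoly.coeff i) * Polynomial.X ^ i) n]
  congr 1
  refine Finset.sum_congr rfl fun i _ => ?_
  rw [← h]
  rfl

end

section
variable {K : Type} [Field K] [NumberField K] {p : ℕ} [hp : Fact p.Prime]
  {E : Type} [NontriviallyNormedField E] [CompleteSpace E] [IsUltrametricDist E] [NormedAlgebra ℚ_[p] E] {n : ℕ}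

theorem fa_of (ρ : GK K →* GL (Fin n) E) (hur : EverywhereUnramified ρ) : FA ρ.ker :=
  fun U hU hN => exp_char ρ.ker hur U hU hN

theorem finite_of_ker {Γ H : Type*} [Group Γ] [TopologicalSpace Γ] [IsTopologicalGroup Γ] [CompactSpace Γ] [Group H]
    (ρ : Γ →* H) {V : Subgroup Γ} (hV : IsOpen (V : Set Γ)) (h : V ≤ ρ.ker) : (Set.range ρ).Finite := by
  have ho : IsOpen (ρ.ker : Set Γ) := Subgroup.isOpen_mono h hV
  haveI : Finite (Γ ⧸ ρ.ker) := Subgroup.quotient_finite_of_isOpen _ ho
  haveI : Finite ρ.range := Finite.of_equiv _ (QuotientGroup.quotientKerEquivRange ρ).toEquiv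
  exact Set.toFinite (ρ.range : Set H)

/-- the contragredient representation -/
noncomputable def contra (ρ : GK K →* GL (Fin n) E) : GK K →* GL (Fin n) E :=
  MonoidHom.toHomUnits
    { toFun := fun g => ((ρ g⁻¹ : GL (Fin n) E) : Matrix (Fin n) (Fin n) E)ᵀ
      map_one' := by rw [inv_one, map_one, Units.val_one, Matrix.transpose_one]
      map_mul' := fun g h => by
        rw [_root_.mul_inv_rev, map_mul, Units.val_mul, Matrix.transpose_mul] }

theorem contra_val (ρ : GK K →* GL (Fin n) E) (g : GK K) : ((contra ρ g : GL (Fin n) E) : Matrix (Fin n) (Fin n) E) =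
    ((ρ g⁻¹ : GL (Fin n) E) : Matrix (Fin n) (Fin n) E)ᵀ := rfl

theorem contra_ker (ρ : GK K →* GL (Fin n) E) (g : GK K) : contra ρ g = 1 ↔ ρ g = 1 := by
  constructor
  · intro h
    have h1 := congrArg Units.val h
    rw [contra_val, Units.val_one] at h1
    have h2 := congrArg Matrix.transpose h1
    rw [Matrix.transpose_transpose, Matrix.transpose_one] at h2
    have h3 : ρ g⁻¹ = 1 := Units.ext h2
    rw [map_inv, inv_eq_one] at h3
    exact h3
  · intro h
    apply Units.ext
    rw [contra_val, map_inv, h, inv_one, Units.val_one, Matrix.transpose_one]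

theorem contra_cont (ρ : GK K →* GL (Fin n) E) (hρ : Continuous ρ) : Continuous (contra ρ) := by
  have h1 : Continuous fun g : GK K => ((ρ g⁻¹ : GL (Fin n) E) : Matrix (Fin n) (Fin n) E)ᵀ :=
    (Units.continuous_val.comp (hρ.comp continuous_inv)).matrix_transpose
  rw [Units.continuous_iff]
  refine ⟨h1, ?_⟩
  have h2 : (fun g : GK K => (((contra ρ g)⁻¹ : GL (Fin n) E) : Matrix (Fin n) (Fin n) E)) =
      fun g : GK K => ((ρ g⁻¹⁻¹ : GL (Fin n) E) : Matrix (Fin n) (Fin n) E)ᵀ := by
    funext g
    rw [← map_inv]
    rfl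
  rw [h2]
  exact h1.comp continuous_inv

include hp in
/-- Frobenius elements of finite order -/
theorem open_of_order {N : Subgroup (GK K)} (hFA : FA N) (ρ : GK K →* GL (Fin n) E) (hρ : Continuous ρ) (hN : N ≤ ρ.ker)
    {δ : ℝ} (hδ : 0 < δ) (Good : HeightOneSpectrum (𝓞 K) → Prop) (hG : ∃ᶠ N in atTop, δ ≤ dens Good N)
    (hX : ∀ v, Good v → ∀ σ, IsFrob v σ → IsOfFinOrder (ρ σ)) :
    ∃ V : Subgroup (GK K), V.Normal ∧ IsOpen (V : Set (GK K)) ∧ V ≤ ρ.ker := by
  classical
  letI : MeasurableSpace (GK K) := borel _
  haveI : BorelSpace (GK K) := ⟨rfl⟩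
  set μ : Measure (GK K) := Measure.haarMeasure (⊤ : TopologicalSpace.PositiveCompacts (GK K)) with hμ
  haveI : IsProbabilityMeasure μ := ⟨by
    have := Measure.haarMeasure_self (K₀ := (⊤ : TopologicalSpace.PositiveCompacts (GK K)))
    rw [hμ]
    rwa [TopologicalSpace.PositiveCompacts.coe_top] at this⟩
  obtain ⟨W, hWn, hWo, hW⟩ := Pool.Agent.X320.KR.exists_close (p := p) ρ hρ
  haveI := hWn
  haveI : Finite (GK K ⧸ W) := Subgroup.quotient_finite_of_isOpen _ hWo
  have hM : 0 < W.index := Nat.pos_of_ne_zero Subgroup.index_ne_zero_of_finite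
  set Z : Set (GK K) := {g | (ρ g : Matrix (Fin n) (Fin n) E) ^ W.index = 1} with hZ
  have hord : ∀ g, IsOfFinOrder (ρ g) → (ρ g : Matrix (Fin n) (Fin n) E) ^ W.index = 1 := by
    intro g hg
    obtain ⟨k, hk, hk1⟩ := isOfFinOrder_iff_pow_eq_one.1 hg
    have h1 : (ρ (g ^ W.index) : Matrix (Fin n) (Fin n) E) = (ρ g : Matrix (Fin n) (Fin n) E) ^ W.index := by
      rw [map_pow, Units.val_pow_eq_pow_val]
    have h2 := mat_near (p := p) hk (hW _ (Subgroup.pow_index_mem W g)) (by
      rw [h1, ← pow_mul, mul_comm, pow_mul, ← Units.val_pow_eq_pow_val (ρ g) k, hk1, Units.val_one, one_pow])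
    rw [← h1, h2]
  have hZc : IsClosed Z := by
    have h1 : Continuous fun g : GK K => (ρ g : Matrix (Fin n) (Fin n) E) := Units.continuous_val.comp hρ
    exact isClosed_eq (h1.pow _) continuous_const
  have h1 := Pool.Agent.X320.DS.measure_ge_freq μ _ hG Z hZc (fun v hv σ hσ => by
    refine hord _ ?_
    rw [map_inv]
    exact (hX v hv σ hσ).inv)
  have hZ0 : μ Z ≠ 0 := by
    intro h
    rw [h] at h1
    have := ENNReal.ofReal_eq_zero.1 (le_antisymm h1 bot_le)
    linarith
  exact main_ind (p := p) μ hFA hM Z hZ0 n ρ hρ hN (fun g hg => by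
    have : (ρ g : Matrix (Fin n) (Fin n) E) ^ W.index = 1 := hg
    rw [this, sub_self]
    exact IsNilpotent.zero)

include hp in
/-- (2) implies (1) -/
theorem finite_of_central (ρ : GK K →* GL (Fin n) E) (hρ : Continuous ρ) (hur : EverywhereUnramified ρ)
    (h : PositiveUpperDensity fun v : HeightOneSpectrum (𝓞 K) => ∀ σ, IsFrob v σ → ∃ a : ℕ, 0 < a ∧
      ∃ U : Subgroup (GK K), IsOpen (U : Set (GK K)) ∧ ∀ u ∈ U, ρ (σ ^ a * u) = ρ (u * σ ^ a)) :
    (Set.range ρ).Finite := by
  classical
  obtain ⟨δ, hδ, hG⟩ := h
  obtain ⟨U₀, hU₀n, hU₀o, hmin⟩ := exists_min ρ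
  have hN : ρ.ker ≤ (adj ρ hU₀n).ker := by
    intro g hg
    rw [MonoidHom.mem_ker, adj_eq_one]
    intro X _
    rw [MonoidHom.mem_ker.1 hg, Units.val_one, Matrix.one_mul, Matrix.mul_one]
  obtain ⟨V, hVn, hVo, hV⟩ := open_of_order (p := p) (fa_of ρ hur) (adj ρ hU₀n) (adj_cont ρ hρ hU₀n) hN hδ _ hG
    (fun v hv σ hσ => by
      obtain ⟨a, ha, U, hUo, hU⟩ := hv σ hσ
      refine isOfFinOrder_iff_pow_eq_one.2 ⟨a, ha, ?_⟩
      rw [← map_pow, adj_eq_one]
      intro X hX
      have h1 := hmin U hUo hX
      refine Submodule.span_induction (p := fun X _ => ((ρ (σ ^ a) : GL (Fin n) E) : Matrix (Fin n) (Fin n) E) * X =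
        X * ((ρ (σ ^ a) : GL (Fin n) E) : Matrix (Fin n) (Fin n) E)) ?_ ?_ ?_ ?_ h1
      · rintro _ ⟨u, hu, rfl⟩
        have h2 := congrArg Units.val (hU u hu)
        rw [map_mul, map_mul, Units.val_mul, Units.val_mul] at h2
        exact h2
      · rw [Matrix.mul_zero, Matrix.zero_mul]
      · intro X Y _ _ h h'
        rw [Matrix.mul_add, Matrix.add_mul, h, h']
      · intro c X _ h
        rw [Matrix.mul_smul, Matrix.smul_mul, h])
  haveI := hVn
  haveI := hU₀n
  obtain ⟨V', _, hV'o, hV'⟩ := triv_of_comm (p := p) (fa_of ρ hur) ρ hρ le_rfl (V ⊓ U₀) inferInstance (hVo.inter hU₀o)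
    (fun u hu w hw => by
      have h1 := (adj_eq_one ρ hU₀n u).1 (MonoidHom.mem_ker.1 (hV hu.1)) (ρ w : Matrix (Fin n) (Fin n) E)
        (Submodule.subset_span ⟨w, hw.2, rfl⟩)
      apply Units.ext
      rw [map_mul, map_mul, Units.val_mul, Units.val_mul]
      exact h1)
  exact finite_of_ker ρ hV'o hV'

include hp in
/-- (3) implies (1) -/
theorem finite_of_charpoly (ρ : GK K →* GL (Fin n) E) (hρ : Continuous ρ) (hur : EverywhereUnramified ρ)
    (P : Set (Fin n → E)) (hPc : P.Countable) (hPcl : IsClosed P)
    (h : PositiveUpperDensity fun v : HeightOneSpectrum (𝓞 K) => ∀ σ, IsFrob v σ →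
      coeffs (ρ σ : Matrix (Fin n) (Fin n) E) ∈ P) :
    (Set.range ρ).Finite := by
  classical
  obtain ⟨δ, hδ, hG⟩ := h
  letI : MeasurableSpace (GK K) := borel _
  haveI : BorelSpace (GK K) := ⟨rfl⟩
  set μ : Measure (GK K) := Measure.haarMeasure (⊤ : TopologicalSpace.PositiveCompacts (GK K)) with hμ
  haveI : IsProbabilityMeasure μ := ⟨by
    have := Measure.haarMeasure_self (K₀ := (⊤ : TopologicalSpace.PositiveCompacts (GK K)))
    rw [hμ]
    rwa [TopologicalSpace.PositiveCompacts.coe_top] at this⟩
  set r := contra ρ with hr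
  have hrc : Continuous r := contra_cont ρ hρ
  have hval : ∀ g, coeffs (r g : Matrix (Fin n) (Fin n) E) = coeffs (ρ g⁻¹ : Matrix (Fin n) (Fin n) E) := by
    intro g
    funext i
    show ((r g : Matrix (Fin n) (Fin n) E)).charpoly.coeff i = ((ρ g⁻¹ : GL (Fin n) E) : Matrix (Fin n) (Fin n) E).charpoly.coeff i
    rw [hr, contra_val, Matrix.charpoly_transpose]
  have hcc : Continuous fun g => coeffs (r g : Matrix (Fin n) (Fin n) E) := by
    refine continuous_pi fun i => ?_
    have hTo : IsOpen ((⊤ : Subgroup (GK K)) : Set (GK K)) := isOpen_univ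
    exact Pool.Agent.X320.RU.cont_mem r hTo hrc _ (coeff_mem r ⊤ i)
  set Z : Set (GK K) := {g | coeffs (r g : Matrix (Fin n) (Fin n) E) ∈ P} with hZ
  have hZc : IsClosed Z := hPcl.preimage hcc
  have h1 := Pool.Agent.X320.DS.measure_ge_freq μ _ hG Z hZc (fun v hv σ hσ => by
    show coeffs (r σ⁻¹ : Matrix (Fin n) (Fin n) E) ∈ P
    rw [hval, inv_inv]
    exact hv σ hσ)
  have hZ0 : μ Z ≠ 0 := by
    intro h
    rw [h] at h1
    have := ENNReal.ofReal_eq_zero.1 (le_antisymm h1 bot_le)
    linarith
  obtain ⟨c, hcP, hc⟩ : ∃ c ∈ P, μ {g | coeffs (r g : Matrix (Fin n) (Fin n) E) = c} ≠ 0 := by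
    by_contra hcon
    push Not at hcon
    apply hZ0
    have e : Z = ⋃ c ∈ P, {g | coeffs (r g : Matrix (Fin n) (Fin n) E) = c} := by
      ext g
      simp [hZ]
    rw [e]
    exact (measure_biUnion_null_iff hPc).2 hcon
  set f : Polynomial E := Polynomial.X ^ n + ∑ i : Fin n, Polynomial.C (c i) * Polynomial.X ^ (i : ℕ) with hf
  have hcf : {g | coeffs (r g : Matrix (Fin n) (Fin n) E) = c} ⊆ {g | (r g : Matrix (Fin n) (Fin n) E).charpoly = f} :=
    fun g hg => charpoly_of_coeffs hg
  have hf0 : μ {g | (r g : Matrix (Fin n) (Fin n) E).charpoly = f} ≠ 0 := fun h => hc (measure_mono_null hcf h)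
  obtain ⟨M, hM, hnil⟩ := quasi_of_const μ r hrc f hf0
  have hker : ρ.ker ≤ r.ker := fun g hg => (contra_ker ρ g).2 hg
  obtain ⟨V, _, hVo, hV⟩ := main_ind (p := p) μ (fa_of ρ hur) hM _ hf0 n r hrc hker (fun g hg => hnil g hg)
  exact finite_of_ker ρ hVo (fun g hg => (contra_ker ρ g).1 (hV hg))

end

/-- Let `K` be a number field, `p` a prime, `E` a complete ultrametric normed field extension of `ℚ_p` and
`ρ : G_K → GL_n(E)` a continuous representation which is unramified at all finite primes. The following are equivalent: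
(1) the image of `ρ` is finite; (2) the primes `v` of `K` for which `ρ(Frob_v)` has finite order have positive upper density;
(3) the primes `v` for which a power of `ρ(Frob_v)` commutes with the image of an open subgroup have positive upper density;
(4) there is a countable closed set `P` such that the primes `v` for which the characteristic polynomial of `ρ(Frob_v)` belongs
to `P` have positive upper density. (`Frob_v`: all Frobenius elements of the absolute Galois group at all primes above `v`.) -/
theorem result (K : Type) [Field K] [NumberField K] (p : ℕ) [Fact p.Prime] (E : Type) [NontriviallyNormedField E]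
    [CompleteSpace E] [IsUltrametricDist E] [NormedAlgebra ℚ_[p] E] (n : ℕ) (ρ : GK K →* GL (Fin n) E)
    (hρ : Continuous ρ) (hur : EverywhereUnramified ρ) :
    List.TFAE [(Set.range ρ).Finite,
      PositiveUpperDensity fun v : HeightOneSpectrum (𝓞 K) => ∀ σ, IsFrob v σ → IsOfFinOrder (ρ σ),
      PositiveUpperDensity fun v : HeightOneSpectrum (𝓞 K) => ∀ σ, IsFrob v σ → ∃ a : ℕ, 0 < a ∧
        ∃ U : Subgroup (GK K), IsOpen (U : Set (GK K)) ∧ ∀ u ∈ U, ρ (σ ^ a * u) = ρ (u * σ ^ a),
      ∃ P : Set (Fin n → E), P.Countable ∧ IsClosed P ∧ PositiveUpperDensity fun v : HeightOneSpectrum (𝓞 K) =>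
        ∀ σ, IsFrob v σ → coeffs (ρ σ : Matrix (Fin n) (Fin n) E) ∈ P] := by
  tfae_have 1 → 2 := by
    intro h
    refine posDens_all fun v σ _ => ?_
    haveI : Finite ρ.range := h
    have h1 : IsOfFinOrder (⟨ρ σ, σ, rfl⟩ : ρ.range) := isOfFinOrder_of_finite _
    obtain ⟨k, hk, hk1⟩ := isOfFinOrder_iff_pow_eq_one.1 h1
    exact isOfFinOrder_iff_pow_eq_one.2 ⟨k, hk, congrArg Subtype.val hk1⟩
  tfae_have 1 → 4 := by
    intro h
    have h1 : (Set.range fun g => coeffs (ρ g : Matrix (Fin n) (Fin n) E)).Finite := by
      have e : (Set.range fun g => coeffs (ρ g : Matrix (Fin n) (Fin n) E)) =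
          (fun X : GL (Fin n) E => coeffs (X : Matrix (Fin n) (Fin n) E)) '' Set.range ρ := by
        ext c
        simp
      rw [e]
      exact h.image _
    exact ⟨_, h1.countable, h1.isClosed, posDens_all fun v σ _ => ⟨σ, rfl⟩⟩
  tfae_have 2 → 3 := by
    rintro ⟨δ, hδ, h⟩
    refine ⟨δ, hδ, h.mono fun N hN => hN.trans (Pool.Agent.W528.Ord.dens_mono (fun v hv σ hσ => ?_) N)⟩
    obtain ⟨k, hk, hk1⟩ := isOfFinOrder_iff_pow_eq_one.1 (hv σ hσ)
    refine ⟨k, hk, ⊤, isOpen_univ, fun u _ => ?_⟩
    rw [map_mul, map_mul, map_pow, hk1, one_mul, mul_one]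
  tfae_have 3 → 1 := finite_of_central (p := p) ρ hρ hur
  tfae_have 4 → 1 := by
    rintro ⟨P, hPc, hPcl, h⟩
    exact finite_of_charpoly (p := p) ρ hρ hur P hPc hPcl h
  tfae_finish

end Pool.Agent.Results.MP_ca71b5_nt.FrobeniusDichotomy
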