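import Pool.Agent.H32.AF.Cls
import Pool.Agent.H32.AF.Box
import Pool.Agent.Results.MP_ca71b5_nt.FrobeniusDichotomy

/-!
# The unramified Fontaine–Mazur conjecture: all number fields, or a positive proportion of counterexamples

Let `p` be a prime number. The conjecture says that for all number fields `K` the continuous representations
`ρ : G_K → GL_n(ℚ_p)` which are unramified at all finite primes have finite image. We prove the following alternative.

Either the conjecture is true for `p` and ALL number fields, or there is a number `m` such that for all multiples `d` of `m`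

(1) there is a residue class of monic polynomials of degree `d` with integer coefficients (modulo a number `D`) such that all
polynomials `f` in this class are irreducible and for `ℚ[X]/(f)`, and all number fields with a root of `f`, the conjecture is
false;

(2) the conjecture is false for `ℚ[X]/(f)`, for a positive proportion of all monic polynomials `f` of degree `d` and height at most
`H`, if `H` is large. We may even demand that all roots of `f` are real, so `ℚ[X]/(f)` is a totally real field.

Hence it suffices to prove the conjecture for almost all number fields in this sense, or for totally real fields.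

Proof. Let `ρ` be a representation of `G_K` with infinite image. We may assume that `K` is a Galois extension of `ℚ`. Let
`f₀` be the polynomial of an integral generator of `K`, `f₁` a product of translates of `f₀` of degree `d`, and `Δ ≠ 0` an integer
combination of `f₁` and `f₁'`. Let `f` be congruent to `f₁` modulo `Δ ^ (d + 1)` and `F` a field with a root `α` of `f`.
Let `τ` be an element of an inertia group of `G_F`, with valuation `v`. If `τ` fixes no root of `f₁` then `v(τ r - r) > 0` and
`v(α - r) = v(α - τ r) ≤ v(τ r - r) ≤ v(Δ)` for the roots `r` of `f₁`, so `v(f₁(α)) ≤ d v(Δ) < v(Δ ^ (d + 1))`, a contradiction.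
So the inertia groups of `G_F` are contained in `G_K`, that is, `K F` is everywhere unramified over `F`, and the
representation of `G_F` induced by the restriction of `ρ` to `G_{K F}` is everywhere unramified, with infinite image. The polynomials
`f` are irreducible if they are Eisenstein polynomials at an additional prime.
-/

set_option autoImplicit false
set_option linter.all false

namespace Pool.Agent.Results.MP_ca71b5_nt.AlmostAllFields

open NumberField Matrix Polynomial
open Pool.Agent.W401.Cheb (GK)
open Pool.Agent.H32.AF
open Pool.Agent.H32.TS (Unr)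
open Pool.Agent.Results.MP_ca71b5_nt.FrobeniusDichotomy (EverywhereUnramified)

/-- The unramified Fontaine–Mazur conjecture for the number field `F` and the prime `p`: all continuous representations of
the absolute Galois group of `F` over `ℚ_p` which are unramified at all finite primes have finite image. -/
def UnramifiedFM (F : Type) [Field F] [NumberField F] (p : ℕ) [Fact p.Prime] : Prop :=
  ∀ (n : ℕ) (ρ : GK F →* GL (Fin n) ℚ_[p]), Continuous ρ → EverywhereUnramified ρ → (Set.range ρ).Finite

/-- The monic polynomial `X ^ d + a_{d-1} X ^ (d-1) + … + a_0`. -/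
noncomputable def monicPoly {d : ℕ} (a : Fin d → ℤ) : ℤ[X] := X ^ d + ∑ i : Fin d, C (a i) * X ^ (i : ℕ)

/-- The polynomial `f` is irreducible over `ℚ` and the unramified Fontaine–Mazur conjecture for `p` is false for
all number fields `F` which contain a root of `f`. -/
def FailsFor (p : ℕ) [Fact p.Prime] (f : ℤ[X]) : Prop :=
  Irreducible (f.map (algebraMap ℤ ℚ)) ∧
    ∀ (F : Type) [Field F] [NumberField F] (α : F), aeval α f = 0 → ¬ UnramifiedFM F p

/-- Let `p` be a prime. Either the unramified Fontaine–Mazur conjecture is true for `p` and all number fields, or there is a number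
`m ≥ 1` such that for all multiples `d` of `m`: (1) there are a number `D` and residues `b` modulo `D` such that the conjecture
fails for all monic integer polynomials `f` of degree `d` with coefficients congruent to `b`, and (2) for a positive proportion
of all monic integer polynomials `f` of degree `d` with coefficients of absolute value at most `H`, for all large `H`, the
conjecture fails for `f` and all roots of `f` are real. -/
theorem result (p : ℕ) [Fact p.Prime] :
    (∀ (K : Type) [Field K] [NumberField K], UnramifiedFM K p) ∨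
    ∃ m : ℕ, 0 < m ∧ ∀ d : ℕ, 0 < d → m ∣ d →
      (∃ (D : ℕ) (b : Fin d → ℤ), 0 < D ∧ ∀ a : Fin d → ℤ, (∀ i, a i ≡ b i [ZMOD D]) → FailsFor p (monicPoly a)) ∧
      ∃ (c : ℝ) (H₀ : ℕ), 0 < c ∧ ∀ H : ℕ, H₀ ≤ H → c * (2 * (H : ℝ) + 1) ^ d ≤
        ({a : Fin d → ℤ | (∀ i, |a i| ≤ H) ∧ FailsFor p (monicPoly a) ∧
          ((monicPoly a).map (algebraMap ℤ ℝ)).Splits}.ncard : ℝ) := by
  classical
  rw [or_iff_not_imp_left]
  intro hnot
  push Not at hnot
  obtain ⟨K, _, _, hK⟩ := hnot
  unfold UnramifiedFM at hK
  push Not at hK
  obtain ⟨n, ρ, hρ, hu, hinf⟩ := hK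
  obtain ⟨f₀, hf₀⟩ := exists_good K
  refine ⟨f₀.natDegree, hf₀.pos, ?_⟩
  rintro d hd ⟨k, hk⟩
  have hk0 : 0 < k := by
    rcases Nat.eq_zero_or_pos k with h | h
    · rw [h, mul_zero] at hk
      omega
    · exact h
  have hk' : d = k * f₀.natDegree := by rw [hk, mul_comm]
  obtain ⟨a, b, Δ, D, f₂, hΔ, hab, hD, hf₂m, hf₂d, hcls⟩ := class_exists hf₀.monic hf₀.pos hf₀.irr hk0
  have key : ∀ a' : Fin d → ℤ, (∀ i : Fin d, a' i ≡ f₂.coeff i [ZMOD D]) → FailsFor p (monicPoly a') := by
    intro a' ha'
    have hm : (monicPoly a').Monic := mpoly_monic a'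
    obtain ⟨h1, g, hg⟩ := hcls (monicPoly a') hm ((mpoly_natDegree a').trans hk')
      (mpoly_dvd a' hf₂m (hf₂d.trans hk'.symm) ha')
    refine ⟨h1, fun F _ _ α hα hFM => ?_⟩
    obtain ⟨N, R, hR, hRu, hRinf⟩ := counter_of_root hf₀ hk0 hΔ hab hm hg α hα ρ hρ hu hinf
    exact hRinf (hFM N R hR hRu)
  refine ⟨⟨D, fun i => f₂.coeff i, hD, key⟩, ?_⟩
  obtain ⟨c, H₀, hc, hcount⟩ := count_real d hd D hD (fun i => f₂.coeff i)
  refine ⟨c, H₀, hc, fun H hH => (hcount H hH).trans ?_⟩
  have hsub : {a : Fin d → ℤ | (∀ i, |a i| ≤ H) ∧ (∀ i : Fin d, a i ≡ f₂.coeff i [ZMOD D]) ∧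
      ((mpoly a).map (algebraMap ℤ ℝ)).Splits} ⊆ {a : Fin d → ℤ | (∀ i, |a i| ≤ H) ∧ FailsFor p (monicPoly a) ∧
      ((monicPoly a).map (algebraMap ℤ ℝ)).Splits} := by
    rintro a' ⟨h1, h2, h3⟩
    exact ⟨h1, key a' h2, h3⟩
  have hfin : {a : Fin d → ℤ | (∀ i, |a i| ≤ H) ∧ FailsFor p (monicPoly a) ∧
      ((monicPoly a).map (algebraMap ℤ ℝ)).Splits}.Finite := by
    refine ((Fintype.piFinset fun _ : Fin d => Finset.Icc (-(H : ℤ)) H).finite_toSet).subset ?_
    rintro a ⟨ha, _⟩
    rw [Finset.mem_coe, Fintype.mem_piFinset]
    intro i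
    rw [Finset.mem_Icc]
    exact abs_le.1 (ha i)
  exact_mod_cast Set.ncard_le_ncard hsub hfin

end Pool.Agent.Results.MP_ca71b5_nt.AlmostAllFields
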