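import Pool.Agent.H32.TS.Gap

/-!
# Everywhere unramified representations: a uniform gap, and the conjecture as a statement about one finite level

Let `K` be a number field, `p` a prime number and `n` a natural number. For a homomorphism `r` from `G_K` to `GL_n(ℤ_p)` or to
`GL_n(ℤ/p^k)` let `N_m(r)` be the set of the `g` with `r(g) ≡ 1` modulo `p ^ m`. We prove that there is a number `e` which depends
only on `K`, `p`, `n` such that

(1) (uniform gap) for all continuous everywhere unramified `ρ : G_K → GL_n(ℤ_p)` the following are equivalent: `ρ` has finite image;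
`N_2(ρ) = N_e(ρ)`; `N_m(ρ) = N_{m+1}(ρ)` for at least one `m ≥ e`. So, for a representation with infinite image the tower of the
fields cut out by `ρ` modulo `p ^ m` has a proper step from `m` to `m + 1` for all `m ≥ e`;

(2) (finite level) all continuous everywhere unramified `ρ : G_K → GL_n(ℤ_p)` have finite image if and only if there is a `k ≥ e`
such that `N_2(r) = N_e(r)` for all everywhere unramified `r : G_K → GL_n(ℤ/p^k)` with open kernel;

(3) the same is true with the additional condition on `ρ` and on `r` that all finite extensions of `K` in the field cut out by the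
representation have degrees which are powers of `p`. The left hand side is the frozen statement `S18487` for `K`, `p`, `n`.

By Hermite's theorem there are only finitely many `r` in (2) for given `k`. So if the conjecture is true for `K`, `p`, `n` then
a calculation with finitely many fields proves it.

Proof. (1) Let `U` be the common kernel of all everywhere unramified representations modulo `p ^ 2`. This is an open subgroup.
If `ρ ≡ 1` modulo `p ^ s` on `U`, `ρ = 1 + p ^ s A`, then the matrix entries of `A` modulo `p ^ s` are everywhere unramified characters of `U`, and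
the exponent of the group of these characters is bounded (Herbrand quotient of the units). If `s` is large then `p` divides `A`. So
`ρ` is trivial on `U` if it is trivial on `U` modulo `p ^ e`. If `N_m = N_{m+1}` then `N_{j} = N_{j+1}` for `2 ≤ j ≤ m`, because of
`g ↦ g ^ p`. (2), (3) Compactness.
-/

set_option autoImplicit false
set_option linter.all false

namespace Pool.Agent.Results.MP_ca71b5_nt.FiniteLevel

open NumberField IsDedekindDomain Matrix IntermediateField
open Pool.Agent.W401.Cheb (GK IsFrob)
open Pool.Agent.H32.TS Pool.Agent.X320.KR Pool.Agent.H32.FM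
open Pool.Agent.Results.MP_ca71b5_nt.FrobeniusDichotomy (EverywhereUnramified)

/-- The elements `g` with `r(g) ≡ 1` modulo `p ^ m`. -/
def Level {G A : Type} [Group G] [CommRing A] {n : ℕ} (p : ℕ) (r : G →* GL (Fin n) A) (m : ℕ) : Set G :=
  {g | ∀ i j, (p : A) ^ m ∣ ((r g : Matrix (Fin n) (Fin n) A) - 1) i j}

/-- Every finite extension of `K` in the field cut out by `ρ` has degree a power of `p`. -/
def PPowerDegree {K : Type} [Field K] [NumberField K] {G : Type} [Group G] (p : ℕ) (ρ : GK K →* G) : Prop :=
  ∀ L : IntermediateField K (AlgebraicClosure K), L ≤ IntermediateField.fixedField ρ.ker → FiniteDimensional K L →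
    ∃ j : ℕ, Module.finrank K L = p ^ j

section
variable {K : Type} [Field K] [NumberField K] {p : ℕ} [hp : Fact p.Prime] {n : ℕ}

theorem dvd_zmod {e k : ℕ} (h : e ≤ k) (y : ℤ_[p]) :
    (p : ZMod (p ^ k)) ^ e ∣ PadicInt.toZModPow k y ↔ (p : ℤ_[p]) ^ e ∣ y := by
  constructor
  · rintro ⟨z, hz⟩
    obtain ⟨w, rfl⟩ := ZMod.ringHom_surjective (PadicInt.toZModPow (p := p) k) z
    have h1 : PadicInt.toZModPow k y = PadicInt.toZModPow k ((p : ℤ_[p]) ^ e * w) := by
      rw [hz, map_mul, map_pow, map_natCast]
    rw [zmod_eq_iff'] at h1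
    have h2 := (pow_dvd_pow (p : ℤ_[p]) h).trans h1
    exact (dvd_sub_left (dvd_mul_right _ _)).1 h2
  · intro h1
    have h2 := map_dvd (PadicInt.toZModPow (p := p) k) h1
    rwa [map_pow, map_natCast] at h2

theorem red_sub_one (k : ℕ) (A : Matrix (Fin n) (Fin n) ℤ_[p]) (i j : Fin n) :
    (red k A - 1) i j = PadicInt.toZModPow k ((A - 1) i j) := by
  rw [← map_one (red (p := p) (n := n) k), ← map_sub]
  rfl

theorem mem_level_red {m k : ℕ} (h : m ≤ k) (r : GK K →* GL (Fin n) (ZMod (p ^ k))) (g : GK K)
    (A : Matrix (Fin n) (Fin n) ℤ_[p]) (hA : red k A = (r g : Matrix (Fin n) (Fin n) (ZMod (p ^ k)))) :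
    g ∈ Level p r m ↔ Cg m A := by
  refine forall_congr' fun i => forall_congr' fun j => ?_
  rw [← hA, red_sub_one, dvd_zmod h]

theorem mem_level (ρ : GK K →* GL (Fin n) ℤ_[p]) (m : ℕ) (g : GK K) :
    g ∈ Level p ρ m ↔ Cg m (ρ g : Matrix (Fin n) (Fin n) ℤ_[p]) := Iff.rfl

theorem units_cont {r : GK K →* Matrix (Fin n) (Fin n) ℤ_[p]} (hr : Continuous r) : Continuous r.toHomUnits := by
  rw [Units.continuous_iff]
  refine ⟨hr, ?_⟩
  have h2 : (fun g : GK K => (((r.toHomUnits g)⁻¹ : GL (Fin n) ℤ_[p]) : Matrix (Fin n) (Fin n) ℤ_[p])) =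
      fun g : GK K => r g⁻¹ := by
    funext g
    rw [← map_inv]
    rfl
  rw [h2]
  exact hr.comp continuous_inv

/-- the uniform gap -/
theorem gap (K : Type) [Field K] [NumberField K] (p : ℕ) [hp : Fact p.Prime] (n : ℕ) : ∃ e : ℕ, 2 ≤ e ∧
    ∀ r : GK K →* Matrix (Fin n) (Fin n) ℤ_[p], Continuous r → Unr r.ker →
      ((Set.range r).Finite ↔ ∀ g, Cg 2 (r g) → Cg e (r g)) ∧ ((Set.range r).Finite → ∀ g, Cg 2 (r g) → r g = 1) := by
  obtain ⟨U, e, hUn, hUo, hU2, hiso⟩ := exists_iso K p n
  refine ⟨max e 2, le_max_right _ _, fun r hr hu => ?_⟩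
  have h1 : (Set.range r).Finite → ∀ g, Cg 2 (r g) → r g = 1 := by
    intro h g hg
    have h2 : (Set.range (toQ r)).Finite := by
      have h3 : Set.range (toQ r) ⊆ (Units.val ⁻¹' (ext n p '' Set.range r)) := by
        rintro _ ⟨g, rfl⟩
        exact ⟨r g, ⟨g, rfl⟩, rfl⟩
      exact ((h.image _).preimage (Units.val_injective.injOn)).subset h3
    obtain ⟨k, hk, hk1⟩ := isOfFinOrder_iff_pow_eq_one.1 (finOrder_of_finite (toQ r) h2 g)
    rw [← map_pow, toQ_eq_one, map_pow] at hk1
    exact near_one hg hk hk1
  refine ⟨⟨fun h g hg => ?_, fun h => ?_⟩, h1⟩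
  · rw [h1 h g hg]
    intro i j
    rw [sub_self]
    exact dvd_zero _
  · have hc : Cong U e r := by
      intro u hu'
      have h2 : (red (p := p) (n := n) 2).toMonoidHom.comp r ∈ Homs K (Matrix (Fin n) (Fin n) (ZMod (p ^ 2))) := by
        refine ⟨(isOpen_red 2 1).preimage hr, hu.mono fun g hg => ?_⟩
        rw [MonoidHom.mem_ker] at hg ⊢
        show red 2 (r g) = 1
        rw [hg, map_one]
      have h3 : red (p := p) (n := n) 2 (r u) = 1 := hU2 _ h2 hu'
      exact (h u ((red_eq_one_iff 2 _).1 h3)).mono (le_max_left _ _)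
    have h2 := hiso r hr hu hc
    have h3 : (Set.range r.toHomUnits).Finite := range_finite r.toHomUnits hUo fun u hu' => Units.ext (h2 u hu')
    have h4 : Set.range r = Units.val '' Set.range r.toHomUnits := by
      rw [← Set.range_comp]
      rfl
    rw [h4]
    exact h3.image _

theorem criterion {e : ℕ} (he : 2 ≤ e)
    (hA : ∀ r : GK K →* Matrix (Fin n) (Fin n) ℤ_[p], Continuous r → Unr r.ker →
      ((Set.range r).Finite ↔ ∀ g, Cg 2 (r g) → Cg e (r g)))
    (Q : Subgroup (GK K) → Prop) (hmono : ∀ N M : Subgroup (GK K), N ≤ M → Q N → Q M)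
    (hlim : ∀ r : GK K →* Matrix (Fin n) (Fin n) ℤ_[p], Continuous r →
      (∀ k, Q ((red (p := p) (n := n) k).toMonoidHom.comp r).ker) → Q r.ker) :
    (∀ ρ : GK K →* GL (Fin n) ℤ_[p], Continuous ρ → EverywhereUnramified ρ → Q ρ.ker → (Set.range ρ).Finite) ↔
      ∃ k, e ≤ k ∧ ∀ r : GK K →* GL (Fin n) (ZMod (p ^ k)), IsOpen (r.ker : Set (GK K)) → EverywhereUnramified r →
        Q r.ker → Level p r 2 = Level p r e := by
  classical
  have hkerU : ∀ r : GK K →* Matrix (Fin n) (Fin n) ℤ_[p], r.toHomUnits.ker = r.ker := by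
    intro r
    ext g
    rw [MonoidHom.mem_ker, MonoidHom.mem_ker]
    exact ⟨fun h => congrArg Units.val h, fun h => Units.ext h⟩
  constructor
  · intro hFM
    by_contra hcon
    push Not at hcon
    obtain ⟨r, hr, hu, hD, hB⟩ := exists_limit (K := K) (p := p) (n := n) (e := e)
      (fun f => ∃ u, (∃ A, Cg 2 A ∧ red e A = f u) ∧ f u ≠ 1)
      (fun k f => ∃ s : GK K →* Matrix (Fin n) (Fin n) (ZMod (p ^ k)), (s : GK K → _) = f ∧ Q s.ker)
      (by
        rintro m k hmk F hF ⟨s, hs, hQ⟩
        obtain ⟨s', hs', hs''⟩ := lev_mono hmk hF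
        refine ⟨s', hs'', hmono _ _ (fun g hg => ?_) hQ⟩
        have h1 : s g = red k (F g) := congrFun hs g
        have h2 : s' g = red m (F g) := congrFun hs'' g
        rw [MonoidHom.mem_ker] at hg ⊢
        rw [h1, ← map_one (red (p := p) (n := n) k)] at hg
        rw [h2, red_mono hmk hg, map_one])
      (by
        intro k hk
        obtain ⟨r, hro, hru, hrQ, hne⟩ := hcon k hk
        choose F hF using fun g => red_surjective (p := p) (n := n) k (r g : Matrix (Fin n) (Fin n) (ZMod (p ^ k)))
        let s : GK K →* Matrix (Fin n) (Fin n) (ZMod (p ^ k)) := (Units.coeHom _).comp r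
        have hsF : (s : GK K → _) = fun g => red k (F g) := by
          funext g
          exact (hF g).symm
        have hsk : s.ker = r.ker := by
          ext g
          rw [MonoidHom.mem_ker, MonoidHom.mem_ker]
          exact ⟨fun h => Units.ext h, fun h => congrArg Units.val h⟩
        refine ⟨F, ⟨s, ⟨?_, ?_⟩, hsF⟩, ⟨s, hsF, ?_⟩, ?_⟩
        · rw [hsk]; exact hro
        · rw [hsk]; exact hru
        · rw [hsk]; exact hrQ
        · have h1 : ∃ u, u ∈ Level p r 2 ∧ u ∉ Level p r e := by
            by_contra hc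
            push Not at hc
            refine hne (Set.Subset.antisymm hc fun u hu => ?_)
            rw [mem_level_red hk r u (F u) (hF u)] at hu
            rw [mem_level_red (he.trans hk) r u (F u) (hF u)]
            exact hu.mono he
          obtain ⟨u, hu1, hu2⟩ := h1
          rw [mem_level_red (he.trans hk) r u (F u) (hF u)] at hu1
          rw [mem_level_red hk r u (F u) (hF u)] at hu2
          exact ⟨u, ⟨F u, hu1, rfl⟩, fun h => hu2 ((red_eq_one_iff e _).1 h)⟩)
    obtain ⟨u, ⟨A, hA2, hAu⟩, hu1⟩ := hB
    have hQ : Q r.ker := by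
      refine hlim r hr fun k => ?_
      obtain ⟨s, hs, hQ⟩ := hD k
      have h1 : s = (red (p := p) (n := n) k).toMonoidHom.comp r := by
        ext1 g
        exact congrFun hs g
      rw [← h1]
      exact hQ
    have hfin := hFM r.toHomUnits (units_cont hr) (by
      show Unr r.toHomUnits.ker
      rw [hkerU]
      exact hu) (by
      rw [hkerU]
      exact hQ)
    have hfin2 : (Set.range r).Finite := by
      have h4 : Set.range r = Units.val '' Set.range r.toHomUnits := by
        rw [← Set.range_comp]
        rfl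
      rw [h4]
      exact hfin.image _
    refine hu1 ((red_eq_one_iff e _).2 ((hA r hr hu).1 hfin2 u ((red_eq_one_iff 2 _).1 ?_)))
    rw [← red_mono he hAu]
    exact (red_eq_one_iff 2 _).2 hA2
  · rintro ⟨k, hk, h⟩ ρ hρ hu hQ
    let r : GK K →* Matrix (Fin n) (Fin n) ℤ_[p] := (Units.coeHom _).comp ρ
    have hr : Continuous r := Units.continuous_val.comp hρ
    have hkr : r.ker = ρ.ker := by
      ext g
      rw [MonoidHom.mem_ker, MonoidHom.mem_ker]
      exact ⟨fun h => Units.ext h, fun h => congrArg Units.val h⟩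
    let r' : GK K →* GL (Fin n) (ZMod (p ^ k)) := (Matrix.GeneralLinearGroup.map (PadicInt.toZModPow k)).comp ρ
    have hr' : ∀ g, red k (ρ g : Matrix (Fin n) (Fin n) ℤ_[p]) = (r' g : Matrix (Fin n) (Fin n) (ZMod (p ^ k))) :=
      fun g => rfl
    have hle : ρ.ker ≤ r'.ker := by
      intro g hg
      rw [MonoidHom.mem_ker] at hg ⊢
      show (Matrix.GeneralLinearGroup.map (PadicInt.toZModPow k)) (ρ g) = 1
      rw [hg, map_one]
    have hop : IsOpen (r'.ker : Set (GK K)) := by
      have h1 : (r'.ker : Set (GK K)) = {g | red (p := p) (n := n) k (r g) = 1} := by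
        ext g
        rw [SetLike.mem_coe, MonoidHom.mem_ker, Set.mem_setOf_eq]
        exact ⟨fun h => congrArg Units.val h, fun h => Units.ext h⟩
      rw [h1]
      exact (isOpen_red k 1).preimage hr
    have h1 := h r' hop (Unr.mono hu hle) (hmono _ _ hle hQ)
    have h2 : (Set.range r).Finite := by
      refine (hA r hr (by rw [hkr]; exact hu)).2 fun g hg => ?_
      have h3 : g ∈ Level p r' 2 := (mem_level_red (he.trans hk) r' g _ (hr' g)).2 hg
      rw [h1] at h3
      exact (mem_level_red hk r' g _ (hr' g)).1 h3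
    have h3 : Set.range r = Units.val '' Set.range ρ := by
      rw [← Set.range_comp]
      rfl
    rw [h3] at h2
    exact Set.Finite.of_finite_image h2 Units.val_injective.injOn

end

/-- Let `K` be a number field, `p` a prime and `n` a natural number. There is a number `e` such that
(1) for all continuous everywhere unramified `ρ : G_K → GL_n(ℤ_p)` these are equivalent: `ρ` has finite image; `N_2(ρ) = N_e(ρ)`;
`N_m(ρ) = N_{m+1}(ρ)` for an `m ≥ e`;
(2) all continuous everywhere unramified `ρ : G_K → GL_n(ℤ_p)` have finite image if and only if there is a `k ≥ e` such that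
`N_2(r) = N_e(r)` for all everywhere unramified `r : G_K → GL_n(ℤ/p^k)` with open kernel;
(3) the same for the representations such that all finite extensions of `K` in the field cut out by the representation have
degrees which are powers of `p`. -/
theorem result (K : Type) [Field K] [NumberField K] (p : ℕ) [Fact p.Prime] (n : ℕ) :
    ∃ e : ℕ, 2 ≤ e ∧
      (∀ ρ : GK K →* GL (Fin n) ℤ_[p], Continuous ρ → EverywhereUnramified ρ →
        List.TFAE [(Set.range ρ).Finite, Level p ρ 2 = Level p ρ e,
          ∃ m, e ≤ m ∧ Level p ρ m = Level p ρ (m + 1)]) ∧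
      ((∀ ρ : GK K →* GL (Fin n) ℤ_[p], Continuous ρ → EverywhereUnramified ρ → (Set.range ρ).Finite) ↔
        ∃ k, e ≤ k ∧ ∀ r : GK K →* GL (Fin n) (ZMod (p ^ k)), IsOpen (r.ker : Set (GK K)) → EverywhereUnramified r →
          Level p r 2 = Level p r e) ∧
      ((∀ ρ : GK K →* GL (Fin n) ℤ_[p], Continuous ρ → EverywhereUnramified ρ → PPowerDegree p ρ →
          (Set.range ρ).Finite) ↔
        ∃ k, e ≤ k ∧ ∀ r : GK K →* GL (Fin n) (ZMod (p ^ k)), IsOpen (r.ker : Set (GK K)) → EverywhereUnramified r →
          PPowerDegree p r → Level p r 2 = Level p r e) := by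
  classical
  obtain ⟨e, he, hgap⟩ := gap K p n
  refine ⟨e, he, fun ρ hρ hu => ?_, ?_, ?_⟩
  · let r : GK K →* Matrix (Fin n) (Fin n) ℤ_[p] := (Units.coeHom _).comp ρ
    have hr : Continuous r := Units.continuous_val.comp hρ
    have hkr : r.ker = ρ.ker := by
      ext g
      rw [MonoidHom.mem_ker, MonoidHom.mem_ker]
      exact ⟨fun h => Units.ext h, fun h => congrArg Units.val h⟩
    have hur : Unr r.ker := by
      rw [hkr]
      exact hu
    obtain ⟨h1, h2⟩ := hgap r hr hur
    have h3 : (Set.range ρ).Finite ↔ (Set.range r).Finite := by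
      have h3 : Set.range r = Units.val '' Set.range ρ := by
        rw [← Set.range_comp]
        rfl
      rw [h3]
      exact ⟨fun h => h.image _, fun h => Set.Finite.of_finite_image h Units.val_injective.injOn⟩
    have hmono : ∀ {a b : ℕ}, a ≤ b → Level p ρ b ⊆ Level p ρ a := fun hab g hg => Cg.mono hab hg
    tfae_have 1 ↔ 2 := by
      rw [h3, h1]
      exact ⟨fun h => Set.Subset.antisymm h (hmono he), fun h g hg => by
        have h4 : g ∈ Level p ρ 2 := hg
        rw [h] at h4
        exact h4⟩
    tfae_have 1 → 3 := by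
      intro h
      refine ⟨e, le_rfl, Set.Subset.antisymm (fun g hg => ?_) (hmono (Nat.le_succ e))⟩
      have h4 : r g = 1 := h2 (h3.1 h) g (Cg.mono he hg)
      show Cg (e + 1) (r g)
      rw [h4]
      intro i j
      rw [sub_self]
      exact dvd_zero _
    tfae_have 3 → 2 := by
      rintro ⟨m, hm, h⟩
      refine Set.Subset.antisymm (fun g hg => ?_) (hmono he)
      refine Cg.mono (show e ≤ m + 1 by omega) (stop_down r (m := m) (fun g hg => ?_) le_rfl (he.trans hm) g hg)
      have h4 : g ∈ Level p ρ m := hg
      rw [h] at h4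
      exact h4
    tfae_finish
  · have := criterion he (fun r hr hu => (hgap r hr hu).1) (fun _ => True) (fun _ _ _ _ => trivial)
      (fun _ _ _ => trivial)
    simpa using this
  · have := criterion he (fun r hr hu => (hgap r hr hu).1) (PPow p) (fun N M h hN => hN.mono h)
      (fun r hr h L hL hf => by
        haveI := hf
        obtain ⟨k, hk⟩ := exists_level r hr L hL
        exact h k L hk hf)
    exact this

end Pool.Agent.Results.MP_ca71b5_nt.FiniteLevel
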