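import Pool.Agent.H32.TS.Main
import Pool.Agent.H32.TS.Abs

/-!
# Everywhere unramified representations: finitely many Frobenius elements decide whether the image is finite

Let `K` be a number field, `p` a prime number and `n` a natural number. The conjecture of Fontaine and Mazur says that all
continuous representations `ρ : G_K → GL_n(ℚ_p)` which are unramified at all finite primes have finite image. We prove that every
set `S` of primes of `K` of positive upper density contains a FINITE subset `T`, which depends on `K`, `p`, `n`, `S` but not on the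
representation, such that for ALL these `ρ` the following are equivalent:

(1) the image of `ρ` is finite;
(2) `ρ(Frob_v)` has finite order for the finitely many `v ∈ T`;
(3) for the `v ∈ T` all eigenvalues of `ρ(Frob_v)` are roots of unity.

In (3) one may also allow characteristic polynomials in any countable closed set `P` given in advance (then `T` depends on
`P`). For a finite extension `E` of `ℚ_p` of degree `d` the theorem for `n d` applies to representations over `E`.

So the counterexamples to the conjecture for `K`, `p`, `n`, whatever they are, are detected by one and the same finite set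
of primes, which may be chosen in any set of primes of positive upper density; for example, among the primes of degree one in a fixed class
of Frobenius elements of a fixed extension.

Proof. (a) There is a stable lattice, so `ρ : G_K → GL_n(ℤ_p)`. For each `m` there are only finitely many representations modulo
`p ^ m` of the type considered (Hermite's theorem: `|disc L| = |disc K| ^ [L : K]` for an unramified extension `L / K`), so the
space of all `ρ` is compact (an inverse limit of finite sets).
(b) Uniform isolation of the `ρ` with finite image: there are an open normal subgroup `U` of `G_K` and a number `e` such that for all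
`ρ` the image is finite if and only if `ρ` is trivial on `U`, if and only if `ρ ≡ 1` modulo `p ^ e` on `U`. Here
`U` is the common kernel of the representations modulo `p ^ 2`, and for `ρ = 1 + p ^ s A` on `U` with `s ≥ e` the matrix entries of `A` modulo `p ^ s`
are characters, whose orders are bounded by the class number and the number of real places of the subfields of the field of `U` (Herbrand quotient of
the unit group), so `p` divides `A`.
(c) So the `ρ` with infinite image form a compact set, and so do those with condition (3) at a given prime `v`. By the theorem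
of the file `FrobeniusDichotomy` no `ρ` with infinite image satisfies (3) at all `v ∈ S`. Now use compactness.
-/

set_option autoImplicit false
set_option linter.all false

namespace Pool.Agent.Results.MP_ca71b5_nt.FiniteTestSets

open NumberField IsDedekindDomain Matrix
open Pool.Agent.W401.Cheb (GK IsFrob)
open Pool.Agent.H32.TS Pool.Agent.X320.KR Pool.Agent.H32.FM
open Pool.Agent.Results.MP_ca71b5_nt.FrobeniusDichotomy (EverywhereUnramified PositiveUpperDensity coeffs)

/-- All eigenvalues of the matrix `X` over `ℚ_p` are roots of unity. -/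
def EigenvaluesRootsOfUnity {p : ℕ} [Fact p.Prime] {n : ℕ} (X : Matrix (Fin n) (Fin n) ℚ_[p]) : Prop :=
  ∀ a : AlgebraicClosure ℚ_[p], (X.charpoly.map (algebraMap ℚ_[p] (AlgebraicClosure ℚ_[p]))).IsRoot a →
    ∃ k : ℕ, 0 < k ∧ a ^ k = 1

section
variable {K : Type} [Field K] [NumberField K] {p : ℕ} [hp : Fact p.Prime] {n : ℕ}

/-- the coefficients of the characteristic polynomials of the integral matrices with roots of unity as eigenvalues -/
def CycPoly (n p : ℕ) [Fact p.Prime] : Set (Fin n → ℚ_[p]) :=
  {c | ∃ A : Matrix (Fin n) (Fin n) ℤ_[p], IsUnit A ∧ coeffs (ext n p A) = c ∧ EigenvaluesRootsOfUnity (ext n p A)}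

theorem poly_coeffs (X : Matrix (Fin n) (Fin n) ℚ_[p]) : poly (coeffs X) = X.charpoly := by
  rw [FrobeniusDichotomy.charpoly_of_coeffs (X := X) rfl]
  rfl

theorem finite_cycPoly : (CycPoly n p).Finite := by
  classical
  haveI : NeZero (p ^ 2) := ⟨pow_ne_zero _ hp.out.ne_zero⟩
  set N : ℕ := Nat.card (Matrix (Fin n) (Fin n) (ZMod (p ^ 2)))ˣ with hN
  have hN0 : 0 < N := Nat.card_pos
  have hfin : {a : AlgebraicClosure ℚ_[p] | a ^ N = 1}.Finite := by
    have h1 : (Polynomial.X ^ N - Polynomial.C (1 : AlgebraicClosure ℚ_[p])) ≠ 0 :=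
      Polynomial.X_pow_sub_C_ne_zero hN0 _
    refine ((Polynomial.X ^ N - Polynomial.C (1 : AlgebraicClosure ℚ_[p])).roots.toFinset.finite_toSet).subset ?_
    intro a ha
    rw [Finset.mem_coe, Multiset.mem_toFinset, Polynomial.mem_roots h1]
    simp [Polynomial.IsRoot, show a ^ N = 1 from ha]
  refine (finite_polys (n := n) (E := ℚ_[p]) _ hfin).subset ?_
  rintro _ ⟨A, hA, rfl, hroot⟩ a ha
  rw [poly_coeffs] at ha
  obtain ⟨k, hk, hak⟩ := hroot a ha
  -- pass to `ℂ_p`
  obtain ⟨u, hu⟩ := hA.map (red (p := p) (n := n) 2)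
  have h1 : red (p := p) (n := n) 2 (A ^ N) = 1 := by
    rw [map_pow, ← hu, ← Units.val_pow_eq_pow_val, hN, pow_card_eq_one', Units.val_one]
  let f : ℚ_[p] →+* PadicComplex p := algebraMap ℚ_[p] (PadicComplex p)
  let A' : Matrix (Fin n) (Fin n) (PadicComplex p) := (ext n p A).map f
  have hD : Dv (rad p) (A' ^ N - 1) := by
    intro i j
    have h2 : A' ^ N - 1 = (ext n p (A ^ N - 1)).map f := by
      show (f.mapMatrix (ext n p A)) ^ N - 1 = f.mapMatrix (ext n p (A ^ N - 1))
      rw [map_sub, map_sub, map_pow, map_pow, map_one, map_one]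
    rw [h2]
    have h3 := congrFun (congrFun (h1.trans (map_one (red (p := p) (n := n) 2)).symm) i) j
    rw [red_apply, red_apply, zmod_eq_iff] at h3
    show ‖f (((A ^ N - 1) i j : ℤ_[p]) : ℚ_[p])‖ ≤ rad p
    have h4 : ‖f (((A ^ N - 1) i j : ℤ_[p]) : ℚ_[p])‖ = ‖(A ^ N - 1) i j‖ := by
      rw [PadicInt.norm_def]
      exact norm_algebraMap' (PadicComplex p) _
    rw [h4]
    refine h3.trans (le_of_eq ?_)
    rw [rad, _root_.zpow_neg, zpow_natCast, pow_two, mul_inv]
  let g : AlgebraicClosure ℚ_[p] →+* PadicComplex p := algebraMap (PadicAlgCl p) (PadicComplex p)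
  have hg : g.comp (algebraMap ℚ_[p] (AlgebraicClosure ℚ_[p])) = f := by
    have := IsScalarTower.algebraMap_eq ℚ_[p] (PadicAlgCl p) (PadicComplex p)
    exact this.symm
  have hroot' : A'.charpoly.IsRoot (g a) := by
    have h5 : A'.charpoly = ((ext n p A).charpoly.map (algebraMap ℚ_[p] (AlgebraicClosure ℚ_[p]))).map g := by
      rw [Polynomial.map_map, hg, ← Matrix.charpoly_map]
    rw [h5]
    exact ha.map
  have h6 := eigen_near (rad_pos (p := p)).le hD hroot'
  have h7 : (g a ^ N) ^ k = 1 := by rw [← pow_mul, mul_comm, pow_mul, ← map_pow, hak, map_one, one_pow]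
  have h8 := root_near (p := p) hk h6 h7
  rw [← map_pow, ← map_one g] at h8
  exact g.injective h8

theorem coeffs_conj (T : GL (Fin n) ℚ_[p]) (X : GL (Fin n) ℚ_[p]) :
    ((T * X * T⁻¹ : GL (Fin n) ℚ_[p]) : Matrix (Fin n) (Fin n) ℚ_[p]).charpoly =
      (X : Matrix (Fin n) (Fin n) ℚ_[p]).charpoly := by
  rw [Units.val_mul, Units.val_mul, Matrix.charpoly_mul_comm, ← mul_assoc, ← Units.val_mul, inv_mul_cancel, Units.val_one,
    one_mul]

end

/-- Let `K` be a number field, `p` a prime, `n` a natural number, `S` a set of primes of `K` of positive upper density and `P` a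
countable closed set of monic polynomials of degree `n` over `ℚ_p` (for example, the empty set). There is a FINITE set `T ⊆ S`
such that for all continuous representations `ρ : G_K → GL_n(ℚ_p)` unramified at all finite primes the following are equivalent:
(1) the image of `ρ` is finite; (2) `ρ(Frob_v)` has finite order for all `v ∈ T`; (3) for all `v ∈ T` the eigenvalues of
`ρ(Frob_v)` are roots of unity, or the characteristic polynomial belongs to `P`. (In (2) and (3) one Frobenius element for
every `v ∈ T` is enough.) -/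
theorem result (K : Type) [Field K] [NumberField K] (p : ℕ) [Fact p.Prime] (n : ℕ)
    (S : Set (HeightOneSpectrum (𝓞 K))) (hS : PositiveUpperDensity fun v => v ∈ S)
    (P : Set (Fin n → ℚ_[p])) (hPc : P.Countable) (hPcl : IsClosed P) :
    ∃ T : Finset (HeightOneSpectrum (𝓞 K)), (T : Set (HeightOneSpectrum (𝓞 K))) ⊆ S ∧
      ∀ ρ : GK K →* GL (Fin n) ℚ_[p], Continuous ρ → EverywhereUnramified ρ →
        List.TFAE [(Set.range ρ).Finite,
          ∀ v ∈ T, ∃ σ, IsFrob v σ ∧ IsOfFinOrder (ρ σ),
          ∀ v ∈ T, ∃ σ, IsFrob v σ ∧ (EigenvaluesRootsOfUnity (ρ σ : Matrix (Fin n) (Fin n) ℚ_[p]) ∨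
            coeffs (ρ σ : Matrix (Fin n) (Fin n) ℚ_[p]) ∈ P)] := by
  classical
  obtain ⟨U, e, hUn, hUo, hU2, hiso⟩ := exists_iso K p n
  obtain ⟨T, hTS, hT⟩ := exists_test hUo hU2 hiso (P ∪ CycPoly n p) (hPc.union finite_cycPoly.countable)
    (hPcl.union finite_cycPoly.isClosed) S hS
  refine ⟨T, hTS, fun ρ hρ hur => ?_⟩
  tfae_have 1 → 2 := by
    intro h v _
    obtain ⟨σ, hσ⟩ := (Pool.Agent.W401.Frob.main K).1 v
    exact ⟨σ, hσ, finOrder_of_finite ρ h σ⟩
  tfae_have 2 → 3 := by
    intro h v hv
    obtain ⟨σ, hσ, ho⟩ := h v hv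
    refine ⟨σ, hσ, Or.inl fun a ha => ?_⟩
    obtain ⟨k, hk, hk1⟩ := isOfFinOrder_iff_pow_eq_one.1 ho
    refine ⟨k, hk, ?_⟩
    have h1 : ((ρ σ : Matrix (Fin n) (Fin n) ℚ_[p]).map (algebraMap ℚ_[p] (AlgebraicClosure ℚ_[p]))).charpoly.IsRoot a := by
      rw [Matrix.charpoly_map]
      exact ha
    rw [← Matrix.mem_spectrum_iff_isRoot_charpoly] at h1
    have h2 := spectrum.pow_mem_pow _ k h1
    have h3 : ((ρ σ : Matrix (Fin n) (Fin n) ℚ_[p]).map (algebraMap ℚ_[p] (AlgebraicClosure ℚ_[p]))) ^ k = 1 := by
      have h4 : (ρ σ : Matrix (Fin n) (Fin n) ℚ_[p]) ^ k = 1 := by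
        rw [← Units.val_pow_eq_pow_val, hk1, Units.val_one]
      show ((algebraMap ℚ_[p] (AlgebraicClosure ℚ_[p])).mapMatrix (ρ σ : Matrix (Fin n) (Fin n) ℚ_[p])) ^ k = 1
      rw [← map_pow, h4, map_one]
    rw [h3] at h2
    haveI : Nontrivial (Matrix (Fin n) (Fin n) (AlgebraicClosure ℚ_[p])) := by
      by_contra hcon
      rw [not_nontrivial_iff_subsingleton] at hcon
      rw [spectrum.of_subsingleton] at h1
      exact h1
    rw [spectrum.one_eq] at h2
    exact h2
  tfae_have 3 → 1 := by
    intro h
    obtain ⟨t, r, hr, hrt⟩ := exists_integral ρ hρ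
    have hval : ∀ g, ext n p (r g) = ((t * ρ g * t⁻¹ : GL (Fin n) ℚ_[p]) : Matrix (Fin n) (Fin n) ℚ_[p]) :=
      fun g => (hrt g).symm
    have hk : ∀ g, r g = 1 ↔ ρ g = 1 := by
      intro g
      constructor
      · intro h1
        have h2 := hval g
        rw [h1, map_one, ← Units.val_one] at h2
        have h3 : t * ρ g * t⁻¹ = 1 := (Units.ext h2).symm
        rw [mul_inv_eq_one] at h3
        exact mul_eq_left.1 h3
      · intro h1
        apply ext_injective
        rw [hval, h1, mul_one, mul_inv_cancel, Units.val_one, map_one]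
    have hker : r.ker = ρ.ker := by
      ext g
      rw [MonoidHom.mem_ker, MonoidHom.mem_ker, hk]
    have hu : Unr r.ker := by
      rw [hker]
      exact hur
    have hcl : IsClosed (ρ.ker : Set (GK K)) := by
      have : (ρ.ker : Set (GK K)) = ρ ⁻¹' {1} := rfl
      rw [this]
      exact isClosed_singleton.preimage hρ
    have h1 : ∀ u ∈ U, r u = 1 := by
      refine hT r hr hu fun v hv τ hτ => ?_
      obtain ⟨σ, hσ, hc⟩ := h v hv
      obtain ⟨g, hg⟩ := frob_conj ρ hcl hur v hσ hτ
      have h2 : coeffs (ext n p (r τ)) = coeffs (ρ σ : Matrix (Fin n) (Fin n) ℚ_[p]) := by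
        funext i
        show (ext n p (r τ)).charpoly.coeff i = (ρ σ : Matrix (Fin n) (Fin n) ℚ_[p]).charpoly.coeff i
        rw [hval, coeffs_conj, hg, coeffs_conj]
      rcases hc with hc | hc
      · refine Or.inr ⟨r τ, ?_, rfl, ?_⟩
        · exact (Group.isUnit τ).map r
        · have h3 : (ext n p (r τ)).charpoly = (ρ σ : Matrix (Fin n) (Fin n) ℚ_[p]).charpoly := by
            rw [hval, coeffs_conj, hg, coeffs_conj]
          intro a ha
          rw [h3] at ha
          exact hc a ha
      · refine Or.inl ?_
        rw [h2]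
        exact hc
    exact range_finite ρ hUo fun u hu' => (hk u).1 (h1 u hu')
  tfae_finish

end Pool.Agent.Results.MP_ca71b5_nt.FiniteTestSets
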